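import Pool.Agent.H109R2.SICBase

set_option autoImplicit false

/-!
# Overlaps of a unit vector with the lines of a maximal equiangular tight frame
-/

namespace Q202.ETF

open Matrix Finset
open Pool.Agent.H109R2.SIC (IsMaxETF P trace_P_mul trace_P trace_PP sum_P design design2 inner_eq
  d1_ne)

variable {d : ℕ} {x : Fin (d ^ 2) → EuclideanSpace ℂ (Fin d)}

/-- the rank one projection onto the line of `e` -/
noncomputable def E (e : EuclideanSpace ℂ (Fin d)) : Matrix (Fin d) (Fin d) ℂ :=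
  Matrix.of fun a b => e a * star (e b)

/-- the overlap of the line of `x i` with `e` -/
noncomputable def ov (x : Fin (d ^ 2) → EuclideanSpace ℂ (Fin d)) (e : EuclideanSpace ℂ (Fin d))
    (i : Fin (d ^ 2)) : ℝ := ‖inner ℂ (x i) e‖ ^ 2

theorem ov_nonneg (e : EuclideanSpace ℂ (Fin d)) (i : Fin (d ^ 2)) : 0 ≤ ov x e i := sq_nonneg _

theorem norm_sq_inner (u v : EuclideanSpace ℂ (Fin d)) :
    ((‖inner ℂ u v‖ ^ 2 : ℝ) : ℂ) = inner ℂ u v * inner ℂ v u := by
  rw [← inner_conj_symm v u, RCLike.mul_conj]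
  norm_cast

theorem tr_E (i : Fin (d ^ 2)) (e : EuclideanSpace ℂ (Fin d)) :
    trace (P x i * E e) = (ov x e i : ℂ) := by
  rw [trace_P_mul, ov, norm_sq_inner, inner_eq, inner_eq, Finset.sum_mul_sum]
  refine Finset.sum_congr rfl fun a _ => Finset.sum_congr rfl fun b _ => ?_
  simp only [E, of_apply]
  ring

theorem tr_EE (e f : EuclideanSpace ℂ (Fin d)) :
    trace (E e * E f) = ((‖inner ℂ e f‖ ^ 2 : ℝ) : ℂ) := by
  rw [norm_sq_inner, inner_eq, inner_eq, Finset.sum_mul_sum]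
  simp only [trace, diag_apply, mul_apply, E, of_apply]
  rw [Finset.sum_comm]
  refine Finset.sum_congr rfl fun a _ => Finset.sum_congr rfl fun b _ => ?_
  ring

theorem tr_E1 {e : EuclideanSpace ℂ (Fin d)} (he : ‖e‖ = 1) : trace (E e) = 1 := by
  have h : inner ℂ e e = (1 : ℂ) := by
    rw [inner_self_eq_norm_sq_to_K, he]; simp
  rw [← h, inner_eq]
  simp only [trace, diag_apply, E, of_apply]
  refine Finset.sum_congr rfl fun a _ => ?_
  ring

theorem sum_ov (hx : IsMaxETF d x) {e : EuclideanSpace ℂ (Fin d)} (he : ‖e‖ = 1) :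
    ∑ i, ov x e i = d := by
  have h : ∑ i, (ov x e i : ℂ) = d := by
    simp only [← tr_E]
    rw [← trace_sum, ← Finset.sum_mul, sum_P hx, smul_mul_assoc, Matrix.one_mul, trace_smul,
      tr_E1 he]
    simp
  exact_mod_cast h

theorem sum_ov_mul (hx : IsMaxETF d x) {e f : EuclideanSpace ℂ (Fin d)} (he : ‖e‖ = 1)
    (hf : ‖f‖ = 1) :
    ∑ i, ov x e i * ov x f i = d / (d + 1) * (1 + ‖inner ℂ e f‖ ^ 2) := by
  have h := design2 hx (E e) (E f)
  simp only [tr_E, tr_EE, tr_E1 he, tr_E1 hf] at h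
  have h2 : ((∑ i, ov x e i * ov x f i : ℝ) : ℂ) =
      ((d / (d + 1) * (1 + ‖inner ℂ e f‖ ^ 2) : ℝ) : ℂ) := by
    push_cast
    push_cast at h
    rw [h]
    ring
  exact_mod_cast h2

theorem sum_ov_sq (hx : IsMaxETF d x) {e : EuclideanSpace ℂ (Fin d)} (he : ‖e‖ = 1) :
    ∑ i, ov x e i ^ 2 = 2 * d / (d + 1) := by
  have h := sum_ov_mul hx he he
  have h1 : ‖inner ℂ e e‖ = 1 := by
    rw [inner_self_eq_norm_sq_to_K, he]; simp
  rw [h1] at h
  simp only [pow_two]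
  rw [h]
  ring

/-- the expansion of the projection onto `e` -/
theorem expand (hx : IsMaxETF d x) {e : EuclideanSpace ℂ (Fin d)} (he : ‖e‖ = 1) :
    ∑ i, ((((d : ℝ) + 1) * ov x e i - 1 : ℝ) : ℂ) • P x i = (d : ℂ) • E e := by
  have h := design hx (E e)
  simp only [tr_E, tr_E1 he] at h
  have h1 : ∑ i, ((((d : ℝ) + 1) * ov x e i - 1 : ℝ) : ℂ) • P x i =
      ((d : ℂ) + 1) • (∑ i, (ov x e i : ℂ) • P x i) - ∑ i, P x i := by
    rw [Finset.smul_sum, ← Finset.sum_sub_distrib]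
    refine Finset.sum_congr rfl fun i _ => ?_
    rw [smul_smul]
    push_cast
    rw [sub_smul, one_smul]
  rw [h1, h, sum_P hx, smul_smul, mul_div_cancel₀ _ (d1_ne (d := d)), one_smul, smul_add]
  abel

/-! ## The overlap inequality -/

theorem card_le (A : Finset (Fin (d ^ 2))) : (A.card : ℝ) ≤ (d : ℝ) ^ 2 := by
  have h := Finset.card_le_univ A
  rw [Fintype.card_fin] at h
  exact_mod_cast h

theorem card_compl_real (A : Finset (Fin (d ^ 2))) :
    ((Aᶜ).card : ℝ) = (d : ℝ) ^ 2 - A.card := by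
  rw [Finset.card_compl, Fintype.card_fin]
  have h := Finset.card_le_univ A
  rw [Fintype.card_fin] at h
  push_cast [h]
  ring

/-- the test function of the set `A` -/
noncomputable def tf (A : Finset (Fin (d ^ 2))) (i : Fin (d ^ 2)) : ℝ :=
  if i ∈ A then (d : ℝ) ^ 2 - A.card else - A.card

theorem sum_ite (A : Finset (Fin (d ^ 2))) (f g : Fin (d ^ 2) → ℝ) :
    ∑ i, (if i ∈ A then f i else g i) = ∑ i ∈ A, f i + ∑ i ∈ Aᶜ, g i := by
  rw [← Finset.sum_add_sum_compl A]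
  congr 1
  · exact Finset.sum_congr rfl fun i hi => by rw [if_pos hi]
  · exact Finset.sum_congr rfl fun i hi => by rw [if_neg (Finset.mem_compl.1 hi)]

theorem sum_tf_sq (A : Finset (Fin (d ^ 2))) :
    ∑ i, tf A i ^ 2 = (A.card : ℝ) * ((d : ℝ) ^ 2 - A.card) * (d : ℝ) ^ 2 := by
  have h : ∀ i, tf A i ^ 2 = if i ∈ A then ((d : ℝ) ^ 2 - A.card) ^ 2 else (A.card : ℝ) ^ 2 := by
    intro i
    unfold tf
    split_ifs <;> ring
  simp only [h]
  rw [sum_ite]
  simp only [Finset.sum_const, nsmul_eq_mul]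
  rw [card_compl_real]
  ring

theorem sum_tf_ov (hx : IsMaxETF d x) {e : EuclideanSpace ℂ (Fin d)} (he : ‖e‖ = 1)
    (A : Finset (Fin (d ^ 2))) :
    ∑ i, tf A i * (ov x e i * d - 1) =
      (d : ℝ) ^ 2 * (d * ∑ i ∈ A, ov x e i - A.card) := by
  have h : ∀ i, tf A i * (ov x e i * d - 1) = if i ∈ A then
      ((d : ℝ) ^ 2 - A.card) * (ov x e i * d - 1) else - A.card * (ov x e i * d - 1) := by
    intro i
    unfold tf
    split_ifs <;> ring
  simp only [h]
  rw [sum_ite, ← Finset.mul_sum, ← Finset.mul_sum]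
  have h1 : ∑ i ∈ Aᶜ, (ov x e i * d - 1) = - ∑ i ∈ A, (ov x e i * d - 1) := by
    have h2 := Finset.sum_add_sum_compl A fun i => (ov x e i * d - 1)
    have h3 : ∑ i, (ov x e i * d - 1) = 0 := by
      rw [Finset.sum_sub_distrib, ← Finset.sum_mul, sum_ov hx he]
      simp
      ring
    linarith
  rw [h1]
  have h4 : ∑ i ∈ A, (ov x e i * d - 1) = d * ∑ i ∈ A, ov x e i - A.card := by
    rw [Finset.sum_sub_distrib, ← Finset.sum_mul]
    simp
    ring
  rw [h4]
  ring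

theorem sum_q_sq (hx : IsMaxETF d x) {e : EuclideanSpace ℂ (Fin d)} (he : ‖e‖ = 1) :
    ∑ i, (ov x e i * d - 1) ^ 2 = (d : ℝ) ^ 2 * ((d - 1) / (d + 1)) := by
  have h : ∀ i, (ov x e i * d - 1) ^ 2 = (d : ℝ) ^ 2 * ov x e i ^ 2 - 2 * d * ov x e i + 1 := by
    intro i
    ring
  simp only [h]
  rw [Finset.sum_add_distrib, Finset.sum_sub_distrib, ← Finset.mul_sum, ← Finset.mul_sum,
    sum_ov hx he, sum_ov_sq hx he]
  simp
  have : (d : ℝ) + 1 ≠ 0 := by positivity
  field_simp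
  ring

/-- **The overlap inequality**, with the defect as a sum of squares. -/
theorem overlap_identity (hx : IsMaxETF d x) {e : EuclideanSpace ℂ (Fin d)} (he : ‖e‖ = 1)
    (A : Finset (Fin (d ^ 2))) :
    ∑ i, ((A.card : ℝ) * ((d : ℝ) ^ 2 - A.card) * (ov x e i * d - 1) -
        (d * ∑ i ∈ A, ov x e i - A.card) * tf A i) ^ 2 =
      (A.card : ℝ) * ((d : ℝ) ^ 2 - A.card) * (d : ℝ) ^ 2 *
        (A.card * ((d : ℝ) ^ 2 - A.card) * ((d - 1) / (d + 1)) -
          (d * ∑ i ∈ A, ov x e i - A.card) ^ 2) := by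
  have h : ∀ i, ((A.card : ℝ) * ((d : ℝ) ^ 2 - A.card) * (ov x e i * d - 1) -
      (d * ∑ i ∈ A, ov x e i - A.card) * tf A i) ^ 2 =
      ((A.card : ℝ) * ((d : ℝ) ^ 2 - A.card)) ^ 2 * (ov x e i * d - 1) ^ 2 -
      2 * ((A.card : ℝ) * ((d : ℝ) ^ 2 - A.card)) * (d * ∑ i ∈ A, ov x e i - A.card) *
        (tf A i * (ov x e i * d - 1)) +
      (d * ∑ i ∈ A, ov x e i - A.card) ^ 2 * tf A i ^ 2 := by
    intro i
    ring
  simp only [h]
  rw [Finset.sum_add_distrib, Finset.sum_sub_distrib, ← Finset.mul_sum, ← Finset.mul_sum,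
    ← Finset.mul_sum, sum_q_sq hx he, sum_tf_ov hx he, sum_tf_sq]
  ring

theorem overlap_le (hx : IsMaxETF d x) {e : EuclideanSpace ℂ (Fin d)} (he : ‖e‖ = 1)
    (hd : 1 ≤ d) (A : Finset (Fin (d ^ 2))) :
    (d * ∑ i ∈ A, ov x e i - A.card) ^ 2 ≤
      A.card * ((d : ℝ) ^ 2 - A.card) * ((d - 1) / (d + 1)) := by
  have h1 := overlap_identity hx he A
  have h2 : 0 ≤ (A.card : ℝ) * ((d : ℝ) ^ 2 - A.card) :=
    mul_nonneg (Nat.cast_nonneg _) (sub_nonneg.2 (card_le A))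
  rcases h2.eq_or_lt with h0 | h0
  · -- `A` is empty or everything
    rw [← h0, zero_mul]
    have h3 : (A.card : ℝ) = 0 ∨ (d : ℝ) ^ 2 - A.card = 0 := mul_eq_zero.1 h0.symm
    rcases h3 with h3 | h3
    · have h4 : A = ∅ := Finset.card_eq_zero.1 (by exact_mod_cast h3)
      subst h4
      simp
    · have h4 : A = Finset.univ := by
        rw [← Finset.card_eq_iff_eq_univ, Fintype.card_fin]
        have : (A.card : ℝ) = (d : ℝ) ^ 2 := by linarith
        exact_mod_cast this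
      subst h4
      rw [sum_ov hx he]
      simp
      ring_nf
  · have hd0 : (0 : ℝ) < (d : ℝ) ^ 2 := by
      have : (0 : ℝ) < d := by exact_mod_cast hd
      positivity
    have h5 : 0 ≤ (A.card : ℝ) * ((d : ℝ) ^ 2 - A.card) * (d : ℝ) ^ 2 *
        (A.card * ((d : ℝ) ^ 2 - A.card) * ((d - 1) / (d + 1)) -
          (d * ∑ i ∈ A, ov x e i - A.card) ^ 2) := by
      rw [← h1]
      exact Finset.sum_nonneg fun i _ => sq_nonneg _
    have h6 := nonneg_of_mul_nonneg_right h5 (mul_pos h0 hd0)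
    linarith

/-- the case of equality -/
theorem overlap_eq (hx : IsMaxETF d x) {e : EuclideanSpace ℂ (Fin d)} (he : ‖e‖ = 1)
    (A : Finset (Fin (d ^ 2))) (h : (d * ∑ i ∈ A, ov x e i - A.card) ^ 2 =
      A.card * ((d : ℝ) ^ 2 - A.card) * ((d - 1) / (d + 1))) (i : Fin (d ^ 2)) :
    (A.card : ℝ) * ((d : ℝ) ^ 2 - A.card) * (ov x e i * d - 1) =
        (d * ∑ i ∈ A, ov x e i - A.card) * tf A i := by
  have h1 := overlap_identity hx he A
  rw [h, sub_self, mul_zero, Finset.sum_eq_zero_iff_of_nonneg fun i _ => sq_nonneg _] at h1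
  have h2 := pow_eq_zero_iff (two_ne_zero) |>.1 (h1 i (Finset.mem_univ i))
  linarith

/-- A unit vector is orthogonal to at most `d (d - 1) / 2` lines. -/
theorem support_card (hx : IsMaxETF d x) {e : EuclideanSpace ℂ (Fin d)} (he : ‖e‖ = 1)
    (hd : 1 ≤ d) (N : Finset (Fin (d ^ 2))) (hN : ∀ i, i ∉ N → ov x e i = 0) :
    (d : ℝ) * (d + 1) ≤ 2 * N.card ∧
      ((d : ℝ) * (d + 1) = 2 * N.card → ∀ i ∈ N, ov x e i = 2 / (d + 1)) := by
  have h1 : ∑ i ∈ N, ov x e i = d := by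
    rw [← sum_ov hx he]
    exact Finset.sum_subset (Finset.subset_univ N) fun i _ hi => hN i hi
  have h2 : ∑ i ∈ N, ov x e i ^ 2 = 2 * d / (d + 1) := by
    rw [← sum_ov_sq hx he]
    exact Finset.sum_subset (Finset.subset_univ N) fun i _ hi => by rw [hN i hi]; ring
  have hd0 : (0 : ℝ) < d := by exact_mod_cast hd
  have h3 : ∑ i ∈ N, (ov x e i - 2 / ((d : ℝ) + 1)) ^ 2 =
      (2 / ((d : ℝ) + 1)) ^ 2 / 2 * (2 * (N.card : ℝ) - d * (d + 1)) := by
    have h : ∀ i, (ov x e i - 2 / ((d : ℝ) + 1)) ^ 2 =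
        ov x e i ^ 2 - 2 * (2 / ((d : ℝ) + 1)) * ov x e i + (2 / ((d : ℝ) + 1)) ^ 2 := by
      intro i
      ring
    simp only [h]
    rw [Finset.sum_add_distrib, Finset.sum_sub_distrib, ← Finset.mul_sum, h1, h2]
    simp
    field_simp
    ring
  have h4 : 0 ≤ (2 / ((d : ℝ) + 1)) ^ 2 / 2 * (2 * N.card - d * (d + 1)) := by
    rw [← h3]
    exact Finset.sum_nonneg fun i _ => sq_nonneg _
  have h5 : 0 ≤ 2 * (N.card : ℝ) - d * (d + 1) :=
    nonneg_of_mul_nonneg_right h4 (by positivity)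
  refine ⟨by linarith, fun h i hi => ?_⟩
  rw [h, sub_self, mul_zero, Finset.sum_eq_zero_iff_of_nonneg fun i _ => sq_nonneg _] at h3
  have h6 := pow_eq_zero_iff (two_ne_zero) |>.1 (h3 i hi)
  linarith

/-! ## Two overlaps -/

/-- the overlaps of `e` are `b` on `A` and `a` off `A` -/
def TwoOv (x : Fin (d ^ 2) → EuclideanSpace ℂ (Fin d)) (e : EuclideanSpace ℂ (Fin d))
    (A : Finset (Fin (d ^ 2))) (a b : ℝ) : Prop := ∀ i, ov x e i = if i ∈ A then b else a

section two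

variable {e : EuclideanSpace ℂ (Fin d)} {A : Finset (Fin (d ^ 2))} {a b : ℝ}

theorem TwoOv.sum_on (h : TwoOv x e A a b) : ∑ i ∈ A, ov x e i = A.card * b := by
  rw [Finset.sum_congr rfl fun i hi => by rw [h i, if_pos hi]]
  simp

theorem TwoOv.sum1 (hx : IsMaxETF d x) (he : ‖e‖ = 1) (h : TwoOv x e A a b) :
    A.card * b + ((d : ℝ) ^ 2 - A.card) * a = d := by
  have h1 := sum_ov hx he
  rw [Finset.sum_congr rfl fun i _ => h i, sum_ite] at h1
  simp only [Finset.sum_const, nsmul_eq_mul] at h1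
  rw [card_compl_real] at h1
  exact h1

theorem TwoOv.sum2 (hx : IsMaxETF d x) (he : ‖e‖ = 1) (h : TwoOv x e A a b) :
    A.card * b ^ 2 + ((d : ℝ) ^ 2 - A.card) * a ^ 2 = 2 * d / (d + 1) := by
  have h1 := sum_ov_sq hx he
  rw [Finset.sum_congr rfl fun i _ => by rw [h i]] at h1
  have h2 : ∀ i, (if i ∈ A then b else a) ^ 2 = if i ∈ A then b ^ 2 else a ^ 2 := by
    intro i
    split_ifs <;> rfl
  simp only [h2] at h1
  rw [sum_ite] at h1
  simp only [Finset.sum_const, nsmul_eq_mul] at h1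
  rw [card_compl_real] at h1
  exact h1

theorem TwoOv.sum3 (hx : IsMaxETF d x) (he : ‖e‖ = 1) (h : TwoOv x e A a b) :
    A.card * ((d : ℝ) ^ 2 - A.card) * (b - a) ^ 2 = (d : ℝ) ^ 2 * ((d - 1) / (d + 1)) := by
  have h1 := h.sum1 hx he
  have h2 := h.sum2 hx he
  have h3 : (A.card : ℝ) * ((d : ℝ) ^ 2 - A.card) * (b - a) ^ 2 =
      (d : ℝ) ^ 2 * (A.card * b ^ 2 + ((d : ℝ) ^ 2 - A.card) * a ^ 2) -
        (A.card * b + ((d : ℝ) ^ 2 - A.card) * a) ^ 2 := by ring
  rw [h3, h1, h2]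
  have : (d : ℝ) + 1 ≠ 0 := by positivity
  field_simp
  ring

theorem TwoOv.card_pos (hx : IsMaxETF d x) (he : ‖e‖ = 1) (hd : 2 ≤ d) (h : TwoOv x e A a b) :
    0 < (A.card : ℝ) ∧ (A.card : ℝ) < (d : ℝ) ^ 2 ∧ a ≠ b := by
  have h3 := h.sum3 hx he
  have hd0 : (2 : ℝ) ≤ d := by exact_mod_cast hd
  have h4 : 0 < (d : ℝ) ^ 2 * ((d - 1) / (d + 1)) := by
    have : (0 : ℝ) < d - 1 := by linarith
    positivity
  rw [← h3] at h4
  refine ⟨?_, ?_, ?_⟩
  · rcases (Nat.cast_nonneg (α := ℝ) A.card).eq_or_lt with h5 | h5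
    · rw [← h5] at h4
      simp at h4
    · exact h5
  · rcases (card_le A).eq_or_lt with h5 | h5
    · rw [h5] at h4
      simp at h4
    · exact h5
  · rintro rfl
    simp at h4

theorem TwoOv.a_nonneg (hx : IsMaxETF d x) (he : ‖e‖ = 1) (hd : 2 ≤ d) (h : TwoOv x e A a b) :
    0 ≤ a := by
  by_contra hcon
  have h1 : ∀ i, i ∈ A := by
    intro i
    by_contra hi
    have h2 := h i
    rw [if_neg hi] at h2
    have := ov_nonneg (x := x) e i
    rw [h2] at this
    exact hcon this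
  have h3 := (h.card_pos hx he hd).2.1
  rw [Finset.eq_univ_of_forall h1, Finset.card_univ, Fintype.card_fin] at h3
  push_cast at h3
  exact lt_irrefl _ h3

/-- the larger overlap is taken at most `d (d + 1) / 2` times -/
theorem TwoOv.card_le (hx : IsMaxETF d x) (he : ‖e‖ = 1) (hd : 2 ≤ d) (h : TwoOv x e A a b)
    (hab : a < b) : 2 * (A.card : ℝ) ≤ d * (d + 1) ∧ (2 * (A.card : ℝ) = d * (d + 1) ↔ a = 0) := by
  have h1 := h.sum1 hx he
  have h2 := h.sum2 hx he
  have h3 := h.sum3 hx he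
  obtain ⟨c1, c2, -⟩ := h.card_pos hx he hd
  have ha := h.a_nonneg hx he hd
  have hd0 : (2 : ℝ) ≤ d := by exact_mod_cast hd
  set r : ℝ := (A.card : ℝ) with hr
  set D : ℝ := (d : ℝ) with hD
  -- `r (b - a) = D - D ^ 2 * a`
  have h4 : r * (b - a) = D - D ^ 2 * a := by linarith
  have h5 : (D ^ 2 - r) * (r * (b - a)) ^ 2 = r * (D ^ 2 * ((D - 1) / (D + 1))) := by
    rw [← h3]
    ring
  have h6 : (D ^ 2 - r) * (D - D ^ 2 * a) ^ 2 * (D + 1) = r * D ^ 2 * (D - 1) := by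
    rw [h4] at h5
    have : D + 1 ≠ 0 := by positivity
    field_simp at h5
    nlinarith [h5]
  have h7 : (D ^ 2 - r) * (1 - D * a) ^ 2 * (D + 1) = r * (D - 1) := by
    have : D ^ 2 ≠ 0 := by positivity
    have h8 : D ^ 2 * ((D ^ 2 - r) * (1 - D * a) ^ 2 * (D + 1)) = D ^ 2 * (r * (D - 1)) := by
      rw [show D ^ 2 * ((D ^ 2 - r) * (1 - D * a) ^ 2 * (D + 1)) =
        (D ^ 2 - r) * (D - D ^ 2 * a) ^ 2 * (D + 1) by ring, h6]
      ring
    exact mul_left_cancel₀ this h8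
  have h9 : 0 < 1 - D * a := by
    have : 0 < D * (1 - D * a) := by
      rw [show D * (1 - D * a) = D - D ^ 2 * a by ring, ← h4]
      exact mul_pos c1 (sub_pos.2 hab)
    exact (mul_pos_iff_of_pos_left (by linarith)).1 this
  have h10 : (1 - D * a) ^ 2 ≤ 1 := by
    have : 0 ≤ D * a := by positivity
    nlinarith
  have h11 : r * (D - 1) ≤ (D ^ 2 - r) * (D + 1) := by
    rw [← h7]
    have : 0 ≤ (D ^ 2 - r) * (D + 1) := mul_nonneg (by linarith) (by linarith)
    nlinarith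
  have hid : r * (D - 1) - (D ^ 2 - r) * (D + 1) = D * (2 * r - D * (D + 1)) := by ring
  have hDp : 0 < D := by linarith
  constructor
  · have h12 : D * (2 * r - D * (D + 1)) ≤ 0 := by
      rw [← hid]
      linarith
    have h13 : 2 * r - D * (D + 1) ≤ 0 := by
      by_contra hcon
      push Not at hcon
      exact absurd (mul_pos hDp hcon) (not_lt.2 h12)
    linarith
  · constructor
    · intro h12
      have h13 : r * (D - 1) = (D ^ 2 - r) * (D + 1) := by
        rw [h12, sub_self, mul_zero] at hid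
        linarith
      rw [← h7] at h13
      have h14 : 0 < (D ^ 2 - r) * (D + 1) := mul_pos (by linarith) (by linarith)
      have h15 : (1 - D * a) ^ 2 = 1 := by
        have : (D ^ 2 - r) * (D + 1) * ((1 - D * a) ^ 2 - 1) = 0 := by linarith
        have := (mul_eq_zero.1 this).resolve_left h14.ne'
        linarith
      have h16 : (D * a) * (2 - D * a) = 0 := by
        have : (D * a) * (2 - D * a) = 1 - (1 - D * a) ^ 2 := by ring
        rw [this, h15, sub_self]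
      have h17 : D * a = 0 := (mul_eq_zero.1 h16).resolve_right (by linarith)
      exact (mul_eq_zero.1 h17).resolve_left hDp.ne'
    · intro h12
      rw [h12, mul_zero, sub_zero, one_pow, mul_one] at h7
      rw [← h7, sub_self] at hid
      have := (mul_eq_zero.1 hid.symm).resolve_left hDp.ne'
      linarith

end two

end Q202.ETF
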