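import Pool.Agent.Q202.ETF.Two

set_option autoImplicit false

/-!
# Vectors with two overlaps: the frame operator of the lines with the larger overlap
-/

namespace Q202.ETF

open Matrix Finset
open Pool.Agent.H109R2.SIC (IsMaxETF P trace_P_mul trace_P trace_PP sum_P design design2 inner_eq
  d1_ne inner_mul_inner)

variable {d : ℕ} {x : Fin (d ^ 2) → EuclideanSpace ℂ (Fin d)}

theorem P_mulVec (i : Fin (d ^ 2)) (w : EuclideanSpace ℂ (Fin d)) :
    (P x i) *ᵥ w.ofLp = (inner ℂ (x i) w • x i).ofLp := by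
  ext a
  rw [inner_eq]
  simp only [mulVec, dotProduct, P, of_apply, PiLp.smul_apply, smul_eq_mul, Finset.sum_mul]
  refine Finset.sum_congr rfl fun b _ => ?_
  ring

theorem E_mulVec (e w : EuclideanSpace ℂ (Fin d)) :
    (E e) *ᵥ w.ofLp = (inner ℂ e w • e).ofLp := by
  ext a
  rw [inner_eq]
  simp only [mulVec, dotProduct, E, of_apply, PiLp.smul_apply, smul_eq_mul, Finset.sum_mul]
  refine Finset.sum_congr rfl fun b _ => ?_
  ring

theorem sum_P_vec (hx : IsMaxETF d x) (w : EuclideanSpace ℂ (Fin d)) :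
    ∑ i, inner ℂ (x i) w • x i = (d : ℂ) • w := by
  have h := congrArg (fun M => M *ᵥ w.ofLp) (sum_P hx)
  simp only [Matrix.sum_mulVec, P_mulVec, Matrix.smul_mulVec, Matrix.one_mulVec] at h
  apply (WithLp.ofLp_injective 2)
  rw [WithLp.ofLp_sum, h]
  rfl

theorem expand_vec (hx : IsMaxETF d x) {e : EuclideanSpace ℂ (Fin d)} (he : ‖e‖ = 1)
    (w : EuclideanSpace ℂ (Fin d)) :
    ∑ i, ((((d : ℝ) + 1) * ov x e i - 1 : ℝ) : ℂ) • inner ℂ (x i) w • x i =
      (d : ℂ) • inner ℂ e w • e := by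
  have h := congrArg (fun M => M *ᵥ w.ofLp) (expand hx he)
  simp only [Matrix.sum_mulVec, Matrix.smul_mulVec, P_mulVec, E_mulVec] at h
  apply (WithLp.ofLp_injective 2)
  rw [WithLp.ofLp_sum]
  exact h

section two

variable {e : EuclideanSpace ℂ (Fin d)} {A : Finset (Fin (d ^ 2))} {a b : ℝ}

/-- the frame operator of the lines in `A` -/
theorem TwoOv.frame (hx : IsMaxETF d x) (he : ‖e‖ = 1) (h : TwoOv x e A a b)
    (w : EuclideanSpace ℂ (Fin d)) :
    ((((d : ℝ) + 1) * (b - a) : ℝ) : ℂ) • ∑ i ∈ A, inner ℂ (x i) w • x i =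
      (d : ℂ) • (inner ℂ e w • e + ((1 - ((d : ℝ) + 1) * a : ℝ) : ℂ) • w) := by
  have h1 := expand_vec hx he w
  have h2 : ∀ i, ((((d : ℝ) + 1) * ov x e i - 1 : ℝ) : ℂ) • inner ℂ (x i) w • x i =
      (if i ∈ A then ((((d : ℝ) + 1) * (b - a) : ℝ) : ℂ) • inner ℂ (x i) w • x i else 0) +
        ((((d : ℝ) + 1) * a - 1 : ℝ) : ℂ) • inner ℂ (x i) w • x i := by
    intro i
    rw [h i]
    split_ifs
    · rw [← add_smul]
      congr 1
      push_cast
      ring
    · rw [zero_add]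
  rw [Finset.sum_congr rfl fun i _ => h2 i, Finset.sum_add_distrib, ← Finset.smul_sum,
    sum_P_vec hx, Finset.sum_ite_mem, Finset.univ_inter, ← Finset.smul_sum] at h1
  rw [smul_add, ← h1]
  rw [smul_comm (((((d : ℝ) + 1) * a - 1 : ℝ) : ℂ)), add_assoc, ← smul_add, ← add_smul]
  rw [show ((((d : ℝ) + 1) * a - 1 : ℝ) : ℂ) + ((1 - ((d : ℝ) + 1) * a : ℝ) : ℂ) = 0 by
    push_cast; ring]
  rw [zero_smul, smul_zero, add_zero]

theorem exists_orth (A : Finset (Fin (d ^ 2))) (hA : A.card < d) :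
    ∃ w : EuclideanSpace ℂ (Fin d), w ≠ 0 ∧ ∀ i ∈ A, inner ℂ (x i) w = 0 := by
  let f : EuclideanSpace ℂ (Fin d) →ₗ[ℂ] (A → ℂ) :=
    LinearMap.pi fun i => (innerₛₗ ℂ (x i))
  have h1 : LinearMap.ker f ≠ ⊥ := by
    apply LinearMap.ker_ne_bot_of_finrank_lt
    rw [Module.finrank_pi, Fintype.card_coe, finrank_euclideanSpace_fin]
    exact hA
  obtain ⟨w, hw, hw0⟩ := Submodule.exists_mem_ne_zero_of_ne_bot h1
  exact ⟨w, hw0, fun i hi => congrFun (LinearMap.mem_ker.1 hw) ⟨i, hi⟩⟩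

/-- few lines with the larger overlap: only the vectors on the lines -/
theorem TwoOv.small (hx : IsMaxETF d x) (he : ‖e‖ = 1) (hd : 2 ≤ d) (h : TwoOv x e A a b)
    (hab : a < b) (hA : A.card < d) :
    ∃ (i : Fin (d ^ 2)) (c : ℂ), A = {i} ∧ e = c • x i := by
  obtain ⟨c1, c2, -⟩ := h.card_pos hx he hd
  have ha := h.a_nonneg hx he hd
  have hd0 : (2 : ℝ) ≤ d := by exact_mod_cast hd
  have hdc : (d : ℂ) ≠ 0 := by
    have : d ≠ 0 := by omega
    exact_mod_cast this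
  have hne : A.Nonempty := Finset.card_pos.1 (by exact_mod_cast c1)
  obtain ⟨w, hw0, hw⟩ := exists_orth (x := x) A hA
  have h1 := h.frame hx he w
  have h2 : ∑ i ∈ A, inner ℂ (x i) w • x i = 0 :=
    Finset.sum_eq_zero fun i hi => by rw [hw i hi, zero_smul]
  rw [h2, smul_zero] at h1
  have h3 := (smul_eq_zero.1 h1.symm).resolve_left hdc
  obtain ⟨i0, hi0⟩ := hne
  have h4 : inner ℂ e w = 0 := by
    have h5 := congrArg (fun v => inner ℂ (x i0) v) h3
    simp only [inner_add_right, inner_smul_right, inner_zero_right, hw i0 hi0, mul_zero,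
      add_zero] at h5
    rcases mul_eq_zero.1 h5 with h6 | h6
    · exact h6
    · exfalso
      have h7 := h i0
      rw [if_pos hi0, ov, h6, norm_zero] at h7
      have : b = 0 := by rw [← h7]; ring
      linarith
  rw [h4, zero_smul, zero_add] at h3
  have h5 : (1 - ((d : ℝ) + 1) * a : ℝ) = 0 := by
    have := (smul_eq_zero.1 h3).resolve_right hw0
    exact_mod_cast this
  have h6 := h.sum1 hx he
  have h7 := h.sum3 hx he
  set r : ℝ := (A.card : ℝ) with hr
  set D : ℝ := (d : ℝ) with hD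
  have hDp : 0 < D := by linarith
  have h8 : r * (b - a) * (D + 1) = D := by
    have h9 : r * (b - a) = D - D ^ 2 * a := by linarith
    rw [h9]
    have h10 : (D + 1) * a = 1 := by linarith
    have : (D - D ^ 2 * a) * (D + 1) = D * (D + 1) - D ^ 2 * ((D + 1) * a) := by ring
    rw [this, h10]
    ring
  have h9 : r = 1 := by
    have h10 : (D ^ 2 - r) * (r * (b - a) * (D + 1)) ^ 2 =
        r * (r * (D ^ 2 - r) * (b - a) ^ 2) * (D + 1) ^ 2 := by ring
    rw [h8, h7] at h10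
    have h11 : D + 1 ≠ 0 := by positivity
    have h12 : r * (D ^ 2 * ((D - 1) / (D + 1))) * (D + 1) ^ 2 =
        r * D ^ 2 * (D - 1) * (D + 1) := by
      field_simp
    rw [h12] at h10
    have h13 : D ^ 4 * (r - 1) = 0 := by
      have : D ^ 4 * (r - 1) = r * D ^ 2 * (D - 1) * (D + 1) - (D ^ 2 - r) * D ^ 2 := by ring
      rw [this, ← h10, sub_self]
    have := (mul_eq_zero.1 h13).resolve_left (by positivity)
    linarith
  have h10 : A.card = 1 := by
    have h9' : (A.card : ℝ) = ((1 : ℕ) : ℝ) := by rw [Nat.cast_one]; exact h9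
    exact Nat.cast_injective h9'
  obtain ⟨i, hi⟩ := Finset.card_eq_one.1 h10
  have h11 := h.frame hx he e
  have h12 : inner ℂ e e = (1 : ℂ) := by
    rw [inner_self_eq_norm_sq_to_K, he]; simp
  rw [hi, Finset.sum_singleton, h12, one_smul] at h11
  refine ⟨i, (d : ℂ)⁻¹ * (((((d : ℝ) + 1) * (b - a) : ℝ) : ℂ) * inner ℂ (x i) e), hi, ?_⟩
  rw [mul_smul, mul_smul, h11]
  have h13 : (((1 - ((d : ℝ) + 1) * a : ℝ)) : ℂ) = 0 := by
    rw [show (1 - ((d : ℝ) + 1) * a : ℝ) = 0 from h5, Complex.ofReal_zero]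
  rw [h13, zero_smul, add_zero, smul_smul, inv_mul_cancel₀ hdc, one_smul]

/-! ## The larger overlap is taken `d` times -/

theorem sq_props (hd : 2 ≤ d) : 0 < √((d : ℝ) + 1) ∧ √((d : ℝ) + 1) ^ 2 = d + 1 ∧
    1 < √((d : ℝ) + 1) := by
  have h0 : (0 : ℝ) < (d : ℝ) + 1 := by positivity
  have h1 : √((d : ℝ) + 1) ^ 2 = d + 1 := Real.sq_sqrt h0.le
  have h2 := Real.sqrt_pos.2 h0
  refine ⟨h2, h1, ?_⟩
  rw [Real.lt_sqrt (by norm_num)]
  have : (2 : ℝ) ≤ d := by exact_mod_cast hd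
  linarith

/-- the two overlaps of the centre of a positive set -/
noncomputable def av (d : ℕ) : ℝ := 1 / (√((d : ℝ) + 1) * (√((d : ℝ) + 1) + 1))

/-- the two overlaps of the centre of a positive set -/
noncomputable def bv (d : ℕ) : ℝ :=
  (√((d : ℝ) + 1) + 2) / (√((d : ℝ) + 1) * (√((d : ℝ) + 1) + 1))

theorem TwoOv.values (hx : IsMaxETF d x) (he : ‖e‖ = 1) (hd : 2 ≤ d) (h : TwoOv x e A a b)
    (hab : a < b) (hA : A.card = d) : a = av d ∧ b = bv d := by
  obtain ⟨s0, s1, s2⟩ := sq_props hd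
  set s := √((d : ℝ) + 1) with hs
  have h1 := h.sum1 hx he
  have h3 := h.sum3 hx he
  rw [hA] at h1 h3
  have hd0 : (2 : ℝ) ≤ d := by exact_mod_cast hd
  have hD : (d : ℝ) = s ^ 2 - 1 := by linarith
  have hDp : (0 : ℝ) < d := by linarith
  have h4 : (b - a) ^ 2 * s ^ 2 = 1 := by
    have h5 : (d : ℝ) ^ 2 * ((d : ℝ) - 1) * ((b - a) ^ 2 * s ^ 2 - 1) = 0 := by
      have h6 : (d : ℝ) * ((d : ℝ) ^ 2 - d) * (b - a) ^ 2 * (d + 1) =
          (d : ℝ) ^ 2 * (((d : ℝ) - 1) / (d + 1)) * (d + 1) := by rw [h3]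
      have h7 : (d : ℝ) ^ 2 * (((d : ℝ) - 1) / (d + 1)) * (d + 1) =
          (d : ℝ) ^ 2 * ((d : ℝ) - 1) := by
        have : (d : ℝ) + 1 ≠ 0 := by positivity
        field_simp
      rw [h7] at h6
      rw [s1]
      linear_combination h6
    have h6 : (0 : ℝ) < (d : ℝ) ^ 2 * ((d : ℝ) - 1) := by
      have : (0 : ℝ) < (d : ℝ) - 1 := by linarith
      positivity
    have := (mul_eq_zero.1 h5).resolve_left h6.ne'
    linarith
  have h5 : (b - a) * s = 1 := by
    have h6 : ((b - a) * s) ^ 2 = 1 := by rw [mul_pow]; exact h4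
    have h7 : 0 < (b - a) * s := mul_pos (sub_pos.2 hab) s0
    nlinarith
  have h6 : b + ((d : ℝ) - 1) * a = 1 := by
    have : (d : ℝ) * (b + ((d : ℝ) - 1) * a - 1) = 0 := by linarith
    have := (mul_eq_zero.1 this).resolve_left hDp.ne'
    linarith
  have h7 : a * (s * (s + 1)) = 1 := by
    have h8 : (d : ℝ) * a * s = s - 1 := by
      have : (d : ℝ) * a * s = (b + ((d : ℝ) - 1) * a) * s - (b - a) * s := by ring
      rw [this, h6, h5]
      ring
    have h9 : (s - 1) * (a * (s * (s + 1)) - 1) = 0 := by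
      rw [hD] at h8
      linear_combination h8
    have := (mul_eq_zero.1 h9).resolve_left (by linarith)
    linarith
  have h8 : 0 < s * (s + 1) := by positivity
  have h9 : a = av d := by
    rw [av, eq_div_iff h8.ne']
    exact h7
  refine ⟨h9, ?_⟩
  rw [bv, eq_div_iff h8.ne']
  have : b * (s * (s + 1)) = (b - a) * s * (s + 1) + a * (s * (s + 1)) := by ring
  rw [this, h5, h7]
  ring

theorem bv_pos (hd : 2 ≤ d) : 0 < bv d := by
  obtain ⟨s0, s1, s2⟩ := sq_props hd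
  unfold bv
  positivity

theorem av_lt_bv (hd : 2 ≤ d) : av d < bv d := by
  obtain ⟨s0, s1, s2⟩ := sq_props hd
  unfold av bv
  gcongr
  linarith

theorem bv_sub_av (hd : 2 ≤ d) : bv d - av d = 1 / √((d : ℝ) + 1) := by
  obtain ⟨s0, s1, s2⟩ := sq_props hd
  unfold av bv
  generalize √((d : ℝ) + 1) = s at *
  field_simp
  ring

/-- the vector sum over the lines with the larger overlap -/
theorem TwoOv.centre (hx : IsMaxETF d x) (he : ‖e‖ = 1) (hd : 2 ≤ d)
    (h : TwoOv x e A (av d) (bv d)) :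
    ∑ i ∈ A, inner ℂ (x i) e • x i = ((d * bv d : ℝ) : ℂ) • e := by
  obtain ⟨s0, s1, s2⟩ := sq_props hd
  have h1 := h.frame hx he e
  have h12 : inner ℂ e e = (1 : ℂ) := by
    rw [inner_self_eq_norm_sq_to_K, he]; simp
  rw [h12, ← add_smul, smul_smul] at h1
  have h2 : ((d : ℝ) + 1) * (bv d - av d) = √((d : ℝ) + 1) := by
    rw [bv_sub_av hd, ← s1]
    generalize √((d : ℝ) + 1) = s at *
    rw [Real.sqrt_sq s0.le]
    field_simp
  rw [h2] at h1
  have h3 : ((√((d : ℝ) + 1) : ℝ) : ℂ) ≠ 0 := by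
    exact_mod_cast s0.ne'
  have h4 : ∑ i ∈ A, inner ℂ (x i) e • x i = (((√((d : ℝ) + 1) : ℝ) : ℂ))⁻¹ •
      (((√((d : ℝ) + 1) : ℝ) : ℂ) • ∑ i ∈ A, inner ℂ (x i) e • x i) := by
    rw [smul_smul, inv_mul_cancel₀ h3, one_smul]
  rw [h4, h1, smul_smul]
  congr 1
  have h5 : ((√((d : ℝ) + 1))⁻¹ * (d * (1 + (1 - ((d : ℝ) + 1) * av d))) : ℝ) = d * bv d := by
    unfold av bv
    generalize √((d : ℝ) + 1) = s at *
    rw [← s1]
    field_simp
    ring
  rw [← h5]
  push_cast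
  ring

end two

end Q202.ETF
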