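import Pool.Agent.Q202.ETF.Two2

set_option autoImplicit false

/-!
# Positive sets of lines and their centres
-/

namespace Q202.ETF

open Matrix Finset
open Pool.Agent.H109R2.SIC (IsMaxETF P trace_P_mul trace_P trace_PP sum_P design design2 inner_eq
  d1_ne inner_mul_inner)

variable {d : ℕ} {x : Fin (d ^ 2) → EuclideanSpace ℂ (Fin d)}

section two

variable {e : EuclideanSpace ℂ (Fin d)} {A : Finset (Fin (d ^ 2))} {a b : ℝ}

/-- the coefficient of the Gram matrix -/
noncomputable def gm (d : ℕ) : ℝ := (√((d : ℝ) + 1) + 1) / (√((d : ℝ) + 1) + 2)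

theorem gm_bv (hd : 2 ≤ d) : gm d * bv d = 1 / √((d : ℝ) + 1) := by
  obtain ⟨s0, s1, s2⟩ := sq_props hd
  unfold gm bv
  generalize √((d : ℝ) + 1) = s at *
  field_simp

theorem gm_pos (hd : 2 ≤ d) : 0 < gm d := by
  obtain ⟨s0, s1, s2⟩ := sq_props hd
  unfold gm
  positivity

theorem ov_eq (i : Fin (d ^ 2)) (e : EuclideanSpace ℂ (Fin d)) :
    (ov x e i : ℂ) = inner ℂ (x i) e * inner ℂ e (x i) := by
  rw [ov, norm_sq_inner]

/-- **The Gram matrix of the lines with the larger overlap.** -/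
theorem TwoOv.gram (hx : IsMaxETF d x) (he : ‖e‖ = 1) (hd : 2 ≤ d)
    (h : TwoOv x e A (av d) (bv d)) (hA : A.card = d) {i j : Fin (d ^ 2)} (hi : i ∈ A)
    (hj : j ∈ A) (hij : i ≠ j) :
    inner ℂ (x i) (x j) = (gm d : ℂ) * (inner ℂ (x i) e * inner ℂ e (x j)) := by
  classical
  obtain ⟨s0, s1, s2⟩ := sq_props hd
  set β : ℝ := 1 - 1 / √((d : ℝ) + 1) with hβ
  let w : Fin (d ^ 2) → Fin (d ^ 2) → ℂ := fun i j =>
    (if i = j then (β : ℂ) else 0) + (gm d : ℂ) * (inner ℂ (x i) e * inner ℂ e (x j))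
  have hw : ∀ i j, star (w i j) = w j i := by
    intro i j
    simp only [w, star_add, star_mul', RCLike.star_def, inner_conj_symm]
    rw [Complex.conj_ofReal]
    congr 1
    · by_cases h : i = j
      · subst h; simp
      · rw [if_neg h, if_neg (Ne.symm h)]; simp
    · rw [mul_comm (inner ℂ e (x i))]
  have hsum : ∑ i ∈ A, inner ℂ (x i) e * inner ℂ e (x i) = ((d * bv d : ℝ) : ℂ) := by
    have h1 := h.sum_on
    rw [hA] at h1
    rw [← h1]
    push_cast
    refine Finset.sum_congr rfl fun i _ => ?_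
    rw [ov_eq]
  have hc := h.centre hx he hd
  -- the three sums
  have t1 : ∑ i ∈ A, ∑ j ∈ A, inner ℂ (x i) (x j) * inner ℂ (x j) (x i) =
      2 * (d : ℂ) ^ 2 / (d + 1) := by
    have h0 := d1_ne (d := d)
    have h1 : ∀ i ∈ A, ∑ j ∈ A, inner ℂ (x i) (x j) * inner ℂ (x j) (x i) =
        2 * (d : ℂ) / (d + 1) := by
      intro i hi
      have h2 : ∀ j, inner ℂ (x i) (x j) * inner ℂ (x j) (x i) =
          (if i = j then ((d : ℂ) / (d + 1)) else 0) + 1 / (d + 1) := by
        intro j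
        rw [inner_mul_inner hx]
        split_ifs
        · field_simp
        · simp
      simp only [h2]
      rw [Finset.sum_add_distrib, Finset.sum_ite_eq, if_pos hi, Finset.sum_const, hA,
        nsmul_eq_mul]
      field_simp
      ring
    rw [Finset.sum_congr rfl h1, Finset.sum_const, hA, nsmul_eq_mul]
    ring
  have t2 : ∑ i ∈ A, ∑ j ∈ A, inner ℂ (x i) (x j) * w j i =
      ((β * d + gm d * (d * bv d) ^ 2 : ℝ) : ℂ) := by
    have h1 : ∀ i ∈ A, ∑ j ∈ A, inner ℂ (x i) (x j) * w j i =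
        (β : ℂ) + (gm d : ℂ) * ((d * bv d : ℝ) : ℂ) * (inner ℂ (x i) e * inner ℂ e (x i)) := by
      intro i hi
      have h2 : ∀ j, inner ℂ (x i) (x j) * w j i =
          (if j = i then (β : ℂ) else 0) +
            (gm d : ℂ) * inner ℂ e (x i) * (inner ℂ (x j) e * inner ℂ (x i) (x j)) := by
        intro j
        simp only [w]
        rw [mul_add]
        congr 1
        · by_cases h : j = i
          · subst h
            rw [if_pos rfl, inner_self_eq_norm_sq_to_K, hx.1]
            simp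
          · rw [if_neg h, mul_zero]
        · ring
      simp only [h2]
      rw [Finset.sum_add_distrib, Finset.sum_ite_eq', if_pos hi, ← Finset.mul_sum]
      have h3 : ∑ j ∈ A, inner ℂ (x j) e * inner ℂ (x i) (x j) =
          ((d * bv d : ℝ) : ℂ) * inner ℂ (x i) e := by
        have h4 := congrArg (fun v => inner ℂ (x i) v) hc
        simp only [inner_sum, inner_smul_right] at h4
        exact h4
      rw [h3]
      ring
    rw [Finset.sum_congr rfl h1, Finset.sum_add_distrib, ← Finset.mul_sum, hsum,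
      Finset.sum_const, hA, nsmul_eq_mul]
    push_cast
    ring
  have t3 : ∑ i ∈ A, ∑ j ∈ A, w i j * w j i =
      ((β ^ 2 * d + 2 * β * gm d * (d * bv d) + gm d ^ 2 * (d * bv d) ^ 2 : ℝ) : ℂ) := by
    have h1 : ∀ i ∈ A, ∑ j ∈ A, w i j * w j i = (β : ℂ) ^ 2 +
        (2 * β * gm d + gm d ^ 2 * ((d * bv d : ℝ) : ℂ)) *
          (inner ℂ (x i) e * inner ℂ e (x i)) := by
      intro i hi
      have h2 : ∀ j, w i j * w j i =
          (if i = j then (β : ℂ) ^ 2 + 2 * β * gm d * (inner ℂ (x i) e * inner ℂ e (x i)) else 0) +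
            (gm d : ℂ) ^ 2 * (inner ℂ (x i) e * inner ℂ e (x i)) *
              (inner ℂ (x j) e * inner ℂ e (x j)) := by
        intro j
        simp only [w]
        by_cases h : i = j
        · subst h
          simp only [if_true]
          ring
        · rw [if_neg h, if_neg (Ne.symm h), if_neg h]
          ring
      simp only [h2]
      rw [Finset.sum_add_distrib, Finset.sum_ite_eq, if_pos hi, ← Finset.mul_sum, hsum]
      ring
    rw [Finset.sum_congr rfl h1, Finset.sum_add_distrib, ← Finset.mul_sum, hsum,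
      Finset.sum_const, hA, nsmul_eq_mul]
    push_cast
    ring
  have t4 : ∑ i ∈ A, ∑ j ∈ A, ((‖inner ℂ (x i) (x j) - w i j‖ ^ 2 : ℝ) : ℂ) = 0 := by
    have h1 : ∀ i j, ((‖inner ℂ (x i) (x j) - w i j‖ ^ 2 : ℝ) : ℂ) =
        inner ℂ (x i) (x j) * inner ℂ (x j) (x i) - inner ℂ (x i) (x j) * w j i -
          inner ℂ (x j) (x i) * w i j + w i j * w j i := by
      intro i j
      have h2 : ((‖inner ℂ (x i) (x j) - w i j‖ ^ 2 : ℝ) : ℂ) =
          (inner ℂ (x i) (x j) - w i j) * star (inner ℂ (x i) (x j) - w i j) := by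
        rw [RCLike.star_def, RCLike.mul_conj]
        norm_cast
      rw [h2, star_sub, hw, RCLike.star_def, inner_conj_symm]
      ring
    simp only [h1]
    simp only [Finset.sum_add_distrib, Finset.sum_sub_distrib]
    rw [t1, t2, t3, Finset.sum_comm (f := fun i j => inner ℂ (x j) (x i) * w i j), t2]
    have h3 : (2 * (d : ℝ) ^ 2 / (d + 1) - (β * d + gm d * (d * bv d) ^ 2) -
        (β * d + gm d * (d * bv d) ^ 2) +
        (β ^ 2 * d + 2 * β * gm d * (d * bv d) + gm d ^ 2 * (d * bv d) ^ 2) : ℝ) = 0 := by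
      rw [hβ]
      unfold gm bv
      generalize √((d : ℝ) + 1) = s at *
      have hD : (d : ℝ) = s ^ 2 - 1 := by linarith
      rw [hD]
      have h5 : s ^ 2 - 1 + 1 = s ^ 2 := by ring
      rw [h5]
      field_simp
      ring
    have h4 := congrArg (fun t : ℝ => (t : ℂ)) h3
    push_cast at h4 ⊢
    exact h4
  have t5 : ∑ i ∈ A, ∑ j ∈ A, ‖inner ℂ (x i) (x j) - w i j‖ ^ 2 = 0 := by
    exact_mod_cast t4
  rw [Finset.sum_eq_zero_iff_of_nonneg fun i _ => Finset.sum_nonneg fun j _ => sq_nonneg _] at t5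
  have t6 := t5 i hi
  rw [Finset.sum_eq_zero_iff_of_nonneg fun j _ => sq_nonneg _] at t6
  have t7 := norm_eq_zero.1 (pow_eq_zero_iff (two_ne_zero) |>.1 (t6 j hj))
  have t8 := sub_eq_zero.1 t7
  rw [t8]
  simp only [w]
  rw [if_neg hij, zero_add]

end two

end Q202.ETF
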