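import Pool.Agent.Q202.ETF.Two3

set_option autoImplicit false

/-!
# Positive sets of lines
-/

namespace Q202.ETF

open Matrix Finset
open Pool.Agent.H109R2.SIC (IsMaxETF P trace_P_mul trace_P trace_PP sum_P design design2 inner_eq
  d1_ne inner_mul_inner)

variable {d : ℕ} {x : Fin (d ^ 2) → EuclideanSpace ℂ (Fin d)}

/-- All triple products of three different lines of `A` are positive real numbers. -/
def Positive (x : Fin (d ^ 2) → EuclideanSpace ℂ (Fin d)) (A : Finset (Fin (d ^ 2))) : Prop :=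
  ∀ i ∈ A, ∀ j ∈ A, ∀ k ∈ A, i ≠ j → j ≠ k → i ≠ k →
    ∃ t : ℝ, 0 < t ∧ inner ℂ (x i) (x j) * inner ℂ (x j) (x k) * inner ℂ (x k) (x i) = (t : ℂ)

theorem ov_pos_of {i : Fin (d ^ 2)} {e : EuclideanSpace ℂ (Fin d)} {b : ℝ} (hb : 0 < b)
    (h : ov x e i = b) : inner ℂ (x i) e * inner ℂ e (x i) = (b : ℂ) := by
  rw [← h, ov_eq]

theorem TwoOv.positive {e : EuclideanSpace ℂ (Fin d)} {A : Finset (Fin (d ^ 2))}
    (hx : IsMaxETF d x) (he : ‖e‖ = 1) (hd : 2 ≤ d)
    (h : TwoOv x e A (av d) (bv d)) (hA : A.card = d) : Positive x A := by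
  intro i hi j hj k hk hij hjk hik
  have hb := bv_pos hd
  have hg := gm_pos hd
  have h1 := ov_pos_of (x := x) hb (by rw [h i, if_pos hi])
  have h2 := ov_pos_of (x := x) hb (by rw [h j, if_pos hj])
  have h3 := ov_pos_of (x := x) hb (by rw [h k, if_pos hk])
  refine ⟨gm d ^ 3 * bv d ^ 3, by positivity, ?_⟩
  rw [h.gram hx he hd hA hi hj hij, h.gram hx he hd hA hj hk hjk,
    h.gram hx he hd hA hk hi hik.symm]
  push_cast
  rw [← h1]
  have h4 : inner ℂ (x i) e * inner ℂ e (x i) = inner ℂ (x j) e * inner ℂ e (x j) := by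
    rw [h1, h2]
  have h5 : inner ℂ (x i) e * inner ℂ e (x i) = inner ℂ (x k) e * inner ℂ e (x k) := by
    rw [h1, h3]
  have h6 : (inner ℂ (x i) e * inner ℂ e (x i)) ^ 3 = (inner ℂ (x i) e * inner ℂ e (x i)) *
      (inner ℂ (x j) e * inner ℂ e (x j)) * (inner ℂ (x k) e * inner ℂ e (x k)) := by
    rw [← h4, ← h5]
    ring
  rw [h6]
  ring

theorem triple_val (hx : IsMaxETF d x) (hd : 2 ≤ d) {i j k : Fin (d ^ 2)} (hij : i ≠ j)
    (hjk : j ≠ k) (hik : i ≠ k) {t : ℝ} (ht : 0 < t)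
    (h : inner ℂ (x i) (x j) * inner ℂ (x j) (x k) * inner ℂ (x k) (x i) = (t : ℂ)) :
    t = (1 / √((d : ℝ) + 1)) ^ 3 := by
  have h1 := congrArg norm h
  rw [norm_mul, norm_mul, hx.2 i j hij, hx.2 j k hjk, hx.2 k i hik.symm, Complex.norm_real,
    Real.norm_of_nonneg ht.le] at h1
  rw [← h1]
  ring

/-- the vectors of a positive set with positive inner products -/
noncomputable def yv (x : Fin (d ^ 2) → EuclideanSpace ℂ (Fin d)) (i0 i : Fin (d ^ 2)) :
    EuclideanSpace ℂ (Fin d) :=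
  (if i = i0 then (1 : ℂ) else ((√((d : ℝ) + 1) : ℝ) : ℂ) * inner ℂ (x i) (x i0)) • x i

theorem norm_coef (hx : IsMaxETF d x) (hd : 2 ≤ d) (i0 i : Fin (d ^ 2)) :
    ‖(if i = i0 then (1 : ℂ) else ((√((d : ℝ) + 1) : ℝ) : ℂ) * inner ℂ (x i) (x i0))‖ = 1 := by
  obtain ⟨s0, s1, s2⟩ := sq_props hd
  split_ifs with h
  · simp
  · rw [norm_mul, hx.2 i i0 h, Complex.norm_real, Real.norm_of_nonneg s0.le]
    field_simp

theorem yv_self (hx : IsMaxETF d x) (hd : 2 ≤ d) (i0 i : Fin (d ^ 2)) :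
    inner ℂ (yv x i0 i) (yv x i0 i) = 1 := by
  have h1 : ‖yv x i0 i‖ = 1 := by
    rw [yv, norm_smul, norm_coef hx hd, hx.1, one_mul]
  rw [inner_self_eq_norm_sq_to_K, h1]
  simp

theorem ov_yv (hx : IsMaxETF d x) (hd : 2 ≤ d) (i0 i : Fin (d ^ 2))
    (e : EuclideanSpace ℂ (Fin d)) : ov x e i = ‖inner ℂ (yv x i0 i) e‖ ^ 2 := by
  rw [yv, inner_smul_left, norm_mul, RCLike.norm_conj, norm_coef hx hd, one_mul, ov]

theorem pos_inner (hx : IsMaxETF d x) (hd : 2 ≤ d) {A : Finset (Fin (d ^ 2))}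
    (hA : Positive x A) {i0 : Fin (d ^ 2)} (h0 : i0 ∈ A) {i j : Fin (d ^ 2)} (hi : i ∈ A)
    (hj : j ∈ A) (hij : i ≠ j) :
    inner ℂ (yv x i0 i) (yv x i0 j) = ((1 / √((d : ℝ) + 1) : ℝ) : ℂ) := by
  obtain ⟨s0, s1, s2⟩ := sq_props hd
  have hs : ((d : ℂ) + 1) = ((√((d : ℝ) + 1) : ℝ) : ℂ) ^ 2 := by
    have := congrArg (fun t : ℝ => (t : ℂ)) s1
    push_cast at this ⊢
    exact this.symm
  have hs0 : ((√((d : ℝ) + 1) : ℝ) : ℂ) ≠ 0 := by exact_mod_cast s0.ne'
  rw [yv, yv, inner_smul_left, inner_smul_right]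
  by_cases hi0 : i = i0
  · subst hi0
    rw [if_pos rfl, if_neg (Ne.symm hij), map_one, one_mul, mul_assoc, inner_mul_inner hx,
      if_neg (Ne.symm hij), hs]
    push_cast
    field_simp
  · rw [if_neg hi0]
    by_cases hj0 : j = i0
    · subst hj0
      rw [if_pos rfl, one_mul, map_mul, inner_conj_symm, Complex.conj_ofReal, mul_assoc,
        inner_mul_inner hx, if_neg (Ne.symm hij), hs]
      push_cast
      field_simp
    · rw [if_neg hj0, map_mul, inner_conj_symm, Complex.conj_ofReal]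
      obtain ⟨t, ht, h1⟩ := hA i hi j hj i0 h0 hij hj0 hi0
      have h2 := triple_val hx hd hij hj0 hi0 ht h1
      have h3 : ((√((d : ℝ) + 1) : ℝ) : ℂ) * inner ℂ (x i0) (x i) *
          (((√((d : ℝ) + 1) : ℝ) : ℂ) * inner ℂ (x j) (x i0) * inner ℂ (x i) (x j)) =
          ((√((d : ℝ) + 1) : ℝ) : ℂ) ^ 2 *
            (inner ℂ (x i) (x j) * inner ℂ (x j) (x i0) * inner ℂ (x i0) (x i)) := by ring
      rw [h3, h1, h2]
      push_cast
      field_simp

/-- a positive set has at most `d` elements -/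
theorem positive_card (hx : IsMaxETF d x) (hd : 2 ≤ d) {A : Finset (Fin (d ^ 2))}
    (hA : Positive x A) : A.card ≤ d := by
  rcases A.eq_empty_or_nonempty with rfl | ⟨i0, h0⟩
  · simp
  obtain ⟨s0, s1, s2⟩ := sq_props hd
  set c : ℝ := 1 / √((d : ℝ) + 1) with hc
  have hc0 : 0 < c := by positivity
  have hc1 : c < 1 := by
    rw [hc, div_lt_one s0]
    exact s2
  have hLI : LinearIndependent ℂ (fun i : A => yv x i0 i.1) := by
    rw [Fintype.linearIndependent_iff]
    intro g hg k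
    have key : ∀ k : A, g k * ((1 - c : ℝ) : ℂ) + (c : ℂ) * ∑ i, g i = 0 := by
      intro k
      have h1 := congrArg (fun v => inner ℂ (yv x i0 k.1) v) hg
      simp only [inner_sum, inner_smul_right, inner_zero_right] at h1
      rw [← h1, Finset.mul_sum]
      have h2 : ∀ i : A, g i * inner ℂ (yv x i0 k.1) (yv x i0 i.1) =
          (if i = k then g i * ((1 - c : ℝ) : ℂ) else 0) + (c : ℂ) * g i := by
        intro i
        by_cases h : i = k
        · subst h
          rw [if_pos rfl, yv_self hx hd]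
          push_cast
          ring
        · rw [if_neg h, pos_inner hx hd hA h0 k.2 i.2 (fun h' => h (Subtype.ext h').symm)]
          rw [zero_add, mul_comm]
      simp only [h2]
      rw [Finset.sum_add_distrib, Finset.sum_ite_eq', if_pos (Finset.mem_univ _)]
    have hsum : ∑ i, g i = 0 := by
      have h1 : ∑ k : A, (g k * ((1 - c : ℝ) : ℂ) + (c : ℂ) * ∑ i, g i) = 0 :=
        Finset.sum_eq_zero fun k _ => key k
      rw [Finset.sum_add_distrib, ← Finset.sum_mul, Finset.sum_const, Finset.card_univ,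
        Fintype.card_coe, nsmul_eq_mul] at h1
      have h2 : (∑ i, g i) * (((1 - c) + A.card * c : ℝ) : ℂ) = 0 := by
        rw [← h1]
        push_cast
        ring
      rcases mul_eq_zero.1 h2 with h3 | h3
      · exact h3
      · exfalso
        have h4 : (1 - c) + A.card * c = 0 := by exact_mod_cast h3
        have h5 : (0 : ℝ) ≤ A.card * c := by positivity
        linarith
    have h1 := key k
    rw [hsum, mul_zero, add_zero] at h1
    rcases mul_eq_zero.1 h1 with h3 | h3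
    · exact h3
    · exfalso
      have h4 : (1 - c) = 0 := by exact_mod_cast h3
      linarith
  have h1 := hLI.fintype_card_le_finrank
  rw [Fintype.card_coe, finrank_euclideanSpace_fin] at h1
  exact h1

/-- **The centre of a positive set with `d` elements.** -/
theorem positive_centre (hx : IsMaxETF d x) (hd : 2 ≤ d) {A : Finset (Fin (d ^ 2))}
    (hA : Positive x A) (hc : A.card = d) :
    ∃ e : EuclideanSpace ℂ (Fin d), ‖e‖ = 1 ∧ TwoOv x e A (av d) (bv d) := by
  obtain ⟨s0, s1, s2⟩ := sq_props hd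
  have hne : A.Nonempty := by
    rw [← Finset.card_pos, hc]
    omega
  obtain ⟨i0, h0⟩ := hne
  set c : ℝ := 1 / √((d : ℝ) + 1) with hcdef
  have hc0 : 0 < c := by positivity
  have hd0 : (2 : ℝ) ≤ d := by exact_mod_cast hd
  have hD : (d : ℝ) = √((d : ℝ) + 1) ^ 2 - 1 := by linarith
  set t : ℝ := 1 + ((d : ℝ) - 1) * c with ht
  have ht0 : 0 < t := by
    have : 0 < ((d : ℝ) - 1) * c := mul_pos (by linarith) hc0
    linarith
  let e0 : EuclideanSpace ℂ (Fin d) := ∑ j ∈ A, yv x i0 j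
  have h1 : ∀ i ∈ A, inner ℂ (yv x i0 i) e0 = (t : ℂ) := by
    intro i hi
    simp only [e0, inner_sum]
    have h2 : ∀ j ∈ A, inner ℂ (yv x i0 i) (yv x i0 j) =
        (if i = j then ((1 - c : ℝ) : ℂ) else 0) + (c : ℂ) := by
      intro j hj
      by_cases h : i = j
      · subst h
        rw [if_pos rfl, yv_self hx hd]
        push_cast
        ring
      · rw [if_neg h, pos_inner hx hd hA h0 hi hj h, zero_add]
    rw [Finset.sum_congr rfl h2, Finset.sum_add_distrib, Finset.sum_ite_eq, if_pos hi,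
      Finset.sum_const, hc, nsmul_eq_mul, ht]
    push_cast
    ring
  have h2 : inner ℂ e0 e0 = ((d * t : ℝ) : ℂ) := by
    have h3 : inner ℂ e0 e0 = ∑ i ∈ A, inner ℂ (yv x i0 i) e0 := by
      conv_lhs => rw [show e0 = ∑ j ∈ A, yv x i0 j from rfl, sum_inner]
    rw [h3, Finset.sum_congr rfl h1, Finset.sum_const, hc, nsmul_eq_mul]
    push_cast
    ring
  have h3 : ‖e0‖ ^ 2 = d * t := by
    have h4 : ((‖e0‖ ^ 2 : ℝ) : ℂ) = ((d * t : ℝ) : ℂ) := by
      rw [← h2, inner_self_eq_norm_sq_to_K]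
      norm_cast
    exact_mod_cast h4
  have hdt : 0 < d * t := by positivity
  have hn0 : 0 < ‖e0‖ := by
    rcases (norm_nonneg e0).eq_or_lt with h | h
    · rw [← h] at h3
      nlinarith
    · exact h
  let e : EuclideanSpace ℂ (Fin d) := ((‖e0‖⁻¹ : ℝ) : ℂ) • e0
  have he : ‖e‖ = 1 := by
    simp only [e]
    rw [norm_smul, Complex.norm_real, norm_inv, norm_norm, inv_mul_cancel₀ hn0.ne']
  have h4 : ∀ i ∈ A, ov x e i = t / d := by
    intro i hi
    rw [ov_yv hx hd i0]
    simp only [e]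
    rw [inner_smul_right, h1 i hi, norm_mul, Complex.norm_real, Complex.norm_real, norm_inv,
      norm_norm, mul_pow, Real.norm_of_nonneg ht0.le, inv_pow, h3]
    field_simp
  have h5 : ∑ i ∈ A, ov x e i = t := by
    rw [Finset.sum_congr rfl h4, Finset.sum_const, hc, nsmul_eq_mul]
    field_simp
  have h6 : (d * ∑ i ∈ A, ov x e i - A.card) ^ 2 =
      A.card * ((d : ℝ) ^ 2 - A.card) * (((d : ℝ) - 1) / (d + 1)) := by
    rw [h5, hc, ht, hcdef]
    generalize √((d : ℝ) + 1) = s at *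
    rw [← s1]
    field_simp
    ring
  have h7 := overlap_eq hx he A h6
  rw [hc, h5] at h7
  refine ⟨e, he, ?_⟩
  -- two values
  have hdd : (0 : ℝ) < (d : ℝ) * ((d : ℝ) ^ 2 - d) := by
    have : (0 : ℝ) < (d : ℝ) ^ 2 - d := by nlinarith
    positivity
  let a' : ℝ := (1 - (d * t - d) / ((d : ℝ) ^ 2 - d)) / d
  have h8 : TwoOv x e A a' (t / d) := by
    intro i
    split_ifs with hi
    · exact h4 i hi
    · have h9 := h7 i
      simp only [tf] at h9
      rw [if_neg hi, hc] at h9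
      have h10 : (0 : ℝ) < (d : ℝ) ^ 2 - d := by nlinarith
      simp only [a']
      rw [eq_div_iff (by positivity), eq_sub_iff_add_eq]
      have h11 : (d : ℝ) * (((d : ℝ) ^ 2 - d) * (ov x e i * d - 1) + (d * t - d)) = 0 := by
        linear_combination h9
      have h12 := (mul_eq_zero.1 h11).resolve_left (by positivity)
      have h13 : ((d : ℝ) * t - d) / ((d : ℝ) ^ 2 - d) = -(ov x e i * d - 1) := by
        rw [div_eq_iff h10.ne']
        linarith
      rw [h13]
      ring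
  have h9 : a' < t / d := by
    simp only [a']
    have h10 : (0 : ℝ) < (d : ℝ) ^ 2 - d := by nlinarith
    have h11 : 0 < (d * t - d) / ((d : ℝ) ^ 2 - d) := by
      apply div_pos _ h10
      have : t - 1 = ((d : ℝ) - 1) * c := by rw [ht]; ring
      have h12 : (d : ℝ) * t - d = d * (t - 1) := by ring
      rw [h12, this]
      have : (0 : ℝ) < (d : ℝ) - 1 := by linarith
      positivity
    have h12 : 1 < t := by
      have : 0 < ((d : ℝ) - 1) * c := mul_pos (by linarith) hc0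
      linarith
    apply div_lt_div_of_pos_right _ (by positivity)
    linarith
  obtain ⟨h10, h11⟩ := h8.values hx he hd h9 hc
  rw [← h10, ← h11]
  exact h8

/-- the angle between two centres -/
theorem centres (hx : IsMaxETF d x) (hd : 2 ≤ d) {A B : Finset (Fin (d ^ 2))}
    (hA : A.card = d) (hB : B.card = d) {e f : EuclideanSpace ℂ (Fin d)} (he : ‖e‖ = 1)
    (hf : ‖f‖ = 1) (h1 : TwoOv x e A (av d) (bv d)) (h2 : TwoOv x f B (av d) (bv d)) :
    ‖inner ℂ e f‖ ^ 2 = ((A ∩ B).card : ℝ) / d := by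
  obtain ⟨s0, s1, s2⟩ := sq_props hd
  have hd0 : (2 : ℝ) ≤ d := by exact_mod_cast hd
  have h3 := sum_ov_mul hx he hf
  have h4 : ∀ i, ov x e i * ov x f i = av d ^ 2 +
      (if i ∈ A then av d * (bv d - av d) else 0) +
      (if i ∈ B then av d * (bv d - av d) else 0) +
      (if i ∈ A ∩ B then (bv d - av d) ^ 2 else 0) := by
    intro i
    rw [h1 i, h2 i]
    by_cases hi : i ∈ A <;> by_cases hj : i ∈ B <;> simp [hi, hj] <;> ring
  simp only [h4] at h3
  rw [Finset.sum_add_distrib, Finset.sum_add_distrib, Finset.sum_add_distrib,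
    Finset.sum_ite_mem, Finset.sum_ite_mem, Finset.sum_ite_mem] at h3
  simp only [Finset.univ_inter, Finset.sum_const, Finset.card_univ, Fintype.card_fin,
    nsmul_eq_mul, hA, hB] at h3
  push_cast at h3
  rw [bv_sub_av hd] at h3
  unfold av at h3
  have hD : (d : ℝ) = √((d : ℝ) + 1) ^ 2 - 1 := by linarith
  rw [eq_div_iff (by positivity)]
  have key : (d : ℝ) / (d + 1) * ‖inner ℂ e f‖ ^ 2 * (d + 1) = ((A ∩ B).card : ℝ) := by
    have h5 : (d : ℝ) / (d + 1) * ‖inner ℂ e f‖ ^ 2 =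
        d / (d + 1) * (1 + ‖inner ℂ e f‖ ^ 2) - d / (d + 1) := by ring
    rw [h5, ← h3]
    generalize ((A ∩ B).card : ℝ) = m at *
    generalize √((d : ℝ) + 1) = s at *
    rw [hD]
    have h6 : s ^ 2 - 1 + 1 = s ^ 2 := by ring
    rw [h6]
    field_simp
    ring
  have h7 : (d : ℝ) + 1 ≠ 0 := by positivity
  rw [← key]
  field_simp

end Q202.ETF
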