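import Pool.Agent.Q202.ETF.Two4

set_option autoImplicit false

/-!
# Orthonormal bases in which the coordinates of a maximal ETF have two moduli
-/

namespace Q202.ETF

open Matrix Finset
open Pool.Agent.H109R2.SIC (IsMaxETF P trace_P_mul trace_P trace_PP sum_P design design2 inner_eq
  d1_ne inner_mul_inner)

variable {d : ℕ} {x : Fin (d ^ 2) → EuclideanSpace ℂ (Fin d)}

/-- the lines with the larger overlap with `e k` -/
noncomputable def Ak (x : Fin (d ^ 2) → EuclideanSpace ℂ (Fin d))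
    (e : OrthonormalBasis (Fin d) ℂ (EuclideanSpace ℂ (Fin d))) (b : ℝ) (k : Fin d) :
    Finset (Fin (d ^ 2)) := by
  classical
  exact Finset.univ.filter fun i => ov x (e k) i = b

/-- the coordinates of `x i` with the larger modulus -/
noncomputable def Sk (x : Fin (d ^ 2) → EuclideanSpace ℂ (Fin d))
    (e : OrthonormalBasis (Fin d) ℂ (EuclideanSpace ℂ (Fin d))) (b : ℝ) (i : Fin (d ^ 2)) :
    Finset (Fin d) := by
  classical
  exact Finset.univ.filter fun k => ov x (e k) i = b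

theorem mem_Ak {e : OrthonormalBasis (Fin d) ℂ (EuclideanSpace ℂ (Fin d))} {b : ℝ} {k : Fin d}
    {i : Fin (d ^ 2)} : i ∈ Ak x e b k ↔ ov x (e k) i = b := by
  classical
  simp [Ak]

theorem mem_Sk {e : OrthonormalBasis (Fin d) ℂ (EuclideanSpace ℂ (Fin d))} {b : ℝ} {k : Fin d}
    {i : Fin (d ^ 2)} : k ∈ Sk x e b i ↔ ov x (e k) i = b := by
  classical
  simp [Sk]

section basis

variable {e : OrthonormalBasis (Fin d) ℂ (EuclideanSpace ℂ (Fin d))} {a b : ℝ}

theorem basis_two (h : ∀ k i, ov x (e k) i = a ∨ ov x (e k) i = b) (k : Fin d) :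
    TwoOv x (e k) (Ak x e b k) a b := by
  intro i
  split_ifs with hi
  · exact mem_Ak.1 hi
  · exact (h k i).resolve_right fun h' => hi (mem_Ak.2 h')

theorem sum_basis (hx : IsMaxETF d x) (i : Fin (d ^ 2)) : ∑ k, ov x (e k) i = 1 := by
  have h1 := e.sum_sq_norm_inner_left (x i)
  rw [hx.1, one_pow] at h1
  exact h1

theorem card_Sk (hx : IsMaxETF d x) (h : ∀ k i, ov x (e k) i = a ∨ ov x (e k) i = b)
    (i : Fin (d ^ 2)) : ((Sk x e b i).card : ℝ) * (b - a) = 1 - d * a := by
  classical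
  have h1 := sum_basis (e := e) hx i
  have h2 : ∀ k, ov x (e k) i = (if k ∈ Sk x e b i then (b - a) else 0) + a := by
    intro k
    split_ifs with hk
    · rw [mem_Sk.1 hk]; ring
    · rw [(h k i).resolve_right fun h' => hk (mem_Sk.2 h')]; ring
  simp only [h2] at h1
  rw [Finset.sum_add_distrib, Finset.sum_ite_mem, Finset.univ_inter, Finset.sum_const,
    Finset.sum_const, Finset.card_univ, Fintype.card_fin, nsmul_eq_mul, nsmul_eq_mul] at h1
  linarith

theorem card_Ak (hx : IsMaxETF d x) (h : ∀ k i, ov x (e k) i = a ∨ ov x (e k) i = b)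
    (k : Fin d) : ((Ak x e b k).card : ℝ) * (b - a) = d * (1 - d * a) := by
  have h1 := (basis_two h k).sum1 hx (e.orthonormal.1 k)
  linarith

theorem basis_main (hx : IsMaxETF d x) (hd : 2 ≤ d) (hab : a < b)
    (h : ∀ k i, ov x (e k) i = a ∨ ov x (e k) i = b) :
    ∃ n m : ℕ, 1 ≤ n ∧ 2 * n ≤ d + 1 ∧ (2 * n = d + 1 ↔ a = 0) ∧ (d - 1) * m = n * (n - 1) ∧
      (∀ i, (Sk x e b i).card = n) ∧ (∀ k, (Ak x e b k).card = d * n) ∧
      (∀ k l, k ≠ l → (Ak x e b k ∩ Ak x e b l).card = d * m) ∧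
      ((d : ℝ) - n) * (1 - d * a) ^ 2 * (d + 1) = n * (d - 1) ∧ b = a + (1 - d * a) / n := by
  classical
  have hd0 : (2 : ℝ) ≤ d := by exact_mod_cast hd
  have hdp : (0 : ℝ) < d := by linarith
  have hba : 0 < b - a := sub_pos.2 hab
  have hpos : 0 < d ^ 2 := by positivity
  let i0 : Fin (d ^ 2) := ⟨0, hpos⟩
  let k0 : Fin d := ⟨0, by omega⟩
  let n := (Sk x e b i0).card
  have hn0 : (n : ℝ) * (b - a) = 1 - d * a := card_Sk hx h i0
  have hS : ∀ i, (Sk x e b i).card = n := by
    intro i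
    have h1 := card_Sk hx h i
    rw [← hn0] at h1
    have h2 := mul_right_cancel₀ hba.ne' h1
    exact_mod_cast h2
  have hA : ∀ k, (Ak x e b k).card = d * n := by
    intro k
    have h1 := card_Ak hx h k
    rw [← hn0, ← mul_assoc] at h1
    have h2 := mul_right_cancel₀ hba.ne' h1
    exact_mod_cast h2
  have htwo := fun k => basis_two (x := x) (e := e) h k
  have hnorm := fun k => e.orthonormal.1 k
  obtain ⟨c1, c2, -⟩ := (htwo k0).card_pos hx (hnorm k0) hd
  have hn1 : 1 ≤ n := by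
    rw [hA k0] at c1
    push_cast at c1
    have : 0 < (n : ℝ) := (mul_pos_iff_of_pos_left hdp).1 c1
    exact_mod_cast this
  obtain ⟨c3, c4⟩ := (htwo k0).card_le hx (hnorm k0) hd hab
  rw [hA k0] at c3 c4
  push_cast at c3 c4
  have hn2 : 2 * (n : ℝ) ≤ d + 1 := by
    have : (d : ℝ) * (2 * n) ≤ d * (d + 1) := by linarith
    exact le_of_mul_le_mul_left this hdp
  have hn3 : (2 * (n : ℝ) = d + 1) ↔ a = 0 := by
    rw [← c4]
    constructor
    · intro h1
      rw [← h1]
      ring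
    · intro h1
      have : (d : ℝ) * (2 * n) = d * (d + 1) := by linarith
      exact mul_left_cancel₀ hdp.ne' this
  -- intersections
  have hint : ∀ k l, k ≠ l → ((Ak x e b k ∩ Ak x e b l).card : ℝ) * (b - a) ^ 2 =
      d / (d + 1) - (d : ℝ) ^ 2 * a ^ 2 - 2 * (a * (b - a)) * (d * n) := by
    intro k l hkl
    have h1 := sum_ov_mul hx (hnorm k) (hnorm l)
    rw [e.orthonormal.2 hkl, norm_zero] at h1
    have h4 : ∀ i, ov x (e k) i * ov x (e l) i = a ^ 2 +
        (if i ∈ Ak x e b k then a * (b - a) else 0) +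
        (if i ∈ Ak x e b l then a * (b - a) else 0) +
        (if i ∈ Ak x e b k ∩ Ak x e b l then (b - a) ^ 2 else 0) := by
      intro i
      rw [htwo k i, htwo l i]
      by_cases hi : i ∈ Ak x e b k <;> by_cases hj : i ∈ Ak x e b l <;> simp [hi, hj] <;> ring
    simp only [h4] at h1
    rw [Finset.sum_add_distrib, Finset.sum_add_distrib, Finset.sum_add_distrib,
      Finset.sum_ite_mem, Finset.sum_ite_mem, Finset.sum_ite_mem] at h1
    simp only [Finset.univ_inter, Finset.sum_const, Finset.card_univ, Fintype.card_fin,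
      nsmul_eq_mul, hA] at h1
    push_cast at h1
    linarith
  let k1 : Fin d := ⟨1, by omega⟩
  have hk01 : k0 ≠ k1 := by
    intro h
    have := congrArg Fin.val h
    simp [k0, k1] at this
  let M := (Ak x e b k0 ∩ Ak x e b k1).card
  have hM : ∀ k l, k ≠ l → (Ak x e b k ∩ Ak x e b l).card = M := by
    intro k l hkl
    have h1 := hint k l hkl
    rw [← hint k0 k1 hk01] at h1
    have h2 := mul_right_cancel₀ (pow_ne_zero 2 hba.ne') h1
    exact_mod_cast h2
  -- double counting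
  have hcount : ∑ l, (Ak x e b k0 ∩ Ak x e b l).card = d * n * n := by
    have h1 : ∀ l, (Ak x e b k0 ∩ Ak x e b l).card =
        ∑ i ∈ Ak x e b k0, if l ∈ Sk x e b i then 1 else 0 := by
      intro l
      rw [Finset.card_eq_sum_ones, ← Finset.filter_mem_eq_inter, Finset.sum_filter]
      refine Finset.sum_congr rfl fun i _ => ?_
      exact if_congr (mem_Ak.trans mem_Sk.symm) rfl rfl
    simp only [h1]
    rw [Finset.sum_comm]
    have h2 : ∀ i ∈ Ak x e b k0, (∑ l, if l ∈ Sk x e b i then 1 else 0) = n := by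
      intro i _
      rw [Finset.sum_ite_mem, Finset.univ_inter, ← Finset.card_eq_sum_ones, hS]
    rw [Finset.sum_congr rfl h2, Finset.sum_const, hA, smul_eq_mul]
  have hcount2 : d * n + (d - 1) * M = d * n * n := by
    rw [← hcount, ← Finset.add_sum_erase _ _ (Finset.mem_univ k0), Finset.inter_self, hA]
    congr 1
    rw [Finset.sum_congr rfl fun l hl => hM k0 l (Finset.ne_of_mem_erase hl).symm,
      Finset.sum_const, Finset.card_erase_of_mem (Finset.mem_univ k0), Finset.card_univ,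
      Fintype.card_fin, smul_eq_mul]
  obtain ⟨p, hp⟩ : ∃ p, d = p + 1 := ⟨d - 1, by omega⟩
  obtain ⟨q, hq⟩ : ∃ q, n = q + 1 := ⟨n - 1, by omega⟩
  have hcount3 : p * M = (p + 1) * ((q + 1) * q) := by
    rw [hp, hq] at hcount2
    simp only [Nat.add_sub_cancel] at hcount2
    have : (p + 1) * (q + 1) + p * M = (p + 1) * (q + 1) + (p + 1) * ((q + 1) * q) := by
      rw [hcount2]
      ring
    exact Nat.add_left_cancel this
  have hdvd : (p + 1) ∣ M := by
    have h1 : (p + 1) ∣ p * M := ⟨_, hcount3⟩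
    have hcop : Nat.Coprime (p + 1) p := by simp
    exact hcop.dvd_of_dvd_mul_left h1
  obtain ⟨m, hm⟩ := hdvd
  have hm2 : p * m = (q + 1) * q := by
    have : (p + 1) * (p * m) = (p + 1) * ((q + 1) * q) := by
      rw [← hcount3, hm]
      ring
    exact Nat.eq_of_mul_eq_mul_left (by omega) this
  refine ⟨n, m, hn1, by exact_mod_cast hn2, ?_, ?_, hS, hA, ?_, ?_, ?_⟩
  · rw [← hn3]
    constructor
    · intro h1
      exact_mod_cast h1
    · intro h1
      exact_mod_cast h1
  · rw [hp, hq]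
    simp only [Nat.add_sub_cancel]
    exact hm2
  · intro k l hkl
    rw [hM k l hkl, hm, hp]
  · have h1 := (htwo k0).sum3 hx (hnorm k0)
    rw [hA k0] at h1
    push_cast at h1
    have hnp : (0 : ℝ) < n := by exact_mod_cast hn1
    have h2 : (d : ℝ) ^ 2 * (n * ((d : ℝ) - n) * (b - a) ^ 2 * (d + 1) - (d - 1)) = 0 := by
      have h3 : (d : ℝ) ^ 2 * (((d : ℝ) - 1) / (d + 1)) * (d + 1) =
          (d : ℝ) ^ 2 * ((d : ℝ) - 1) := by
        have : (d : ℝ) + 1 ≠ 0 := by positivity
        field_simp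
      rw [← h1] at h3
      linear_combination h3
    have h3 := (mul_eq_zero.1 h2).resolve_left (by positivity)
    rw [← hn0]
    have h4 : ((d : ℝ) - n) * (n * (b - a)) ^ 2 * (d + 1) =
        n * (n * ((d : ℝ) - n) * (b - a) ^ 2 * (d + 1)) := by ring
    rw [h4]
    have h5 : n * ((d : ℝ) - n) * (b - a) ^ 2 * (d + 1) = (d : ℝ) - 1 := by linarith
    rw [h5]
  · have hnp : (0 : ℝ) < n := by exact_mod_cast hn1
    rw [← hn0]
    field_simp
    ring

/-- the phase of a complex number -/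
noncomputable def ph (z : ℂ) : ℂ := z / (‖z‖ : ℂ)

/-- **One large coordinate: Hadamard matrices.** -/
theorem basis_hadamard (hx : IsMaxETF d x) (hd : 2 ≤ d)
    (h : ∀ k, TwoOv x (e k) (Ak x e (bv d) k) (av d) (bv d))
    (hA : ∀ k, (Ak x e (bv d) k).card = d)
    (hdis : ∀ k l, k ≠ l → Disjoint (Ak x e (bv d) k) (Ak x e (bv d) l)) (k : Fin d)
    {i j : Fin (d ^ 2)} (hi : i ∈ Ak x e (bv d) k) (hj : j ∈ Ak x e (bv d) k) (hij : i ≠ j) :
    ∑ l, star (ph (inner ℂ (e l) (x i))) * ph (inner ℂ (e l) (x j)) = 0 := by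
  classical
  obtain ⟨s0, s1, s2⟩ := sq_props hd
  have hb := bv_pos hd
  have ha : 0 < av d := by unfold av; positivity
  have hnorm := fun k => e.orthonormal.1 k
  have hg := (h k).gram hx (hnorm k) hd (hA k) hi hj hij
  -- the terms
  have hterm : ∀ (l : Fin d) (c : ℝ), 0 < c → ov x (e l) i = c → ov x (e l) j = c →
      inner ℂ (x i) (e l) * inner ℂ (e l) (x j) =
        (c : ℂ) * (star (ph (inner ℂ (e l) (x i))) * ph (inner ℂ (e l) (x j))) := by
    intro l c hc h1 h2
    have h3 : ‖inner ℂ (e l) (x i)‖ ^ 2 = c := by rw [norm_inner_symm]; exact h1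
    have h4 : ‖inner ℂ (e l) (x j)‖ ^ 2 = c := by rw [norm_inner_symm]; exact h2
    have h5 : ‖inner ℂ (e l) (x i)‖ = √c := by
      rw [← h3, Real.sqrt_sq (norm_nonneg _)]
    have h6 : ‖inner ℂ (e l) (x j)‖ = √c := by
      rw [← h4, Real.sqrt_sq (norm_nonneg _)]
    have hc0 : ((√c : ℝ) : ℂ) ≠ 0 := by exact_mod_cast (Real.sqrt_pos.2 hc).ne'
    have hcc : (c : ℂ) = ((√c : ℝ) : ℂ) ^ 2 := by
      have := Real.sq_sqrt hc.le
      exact_mod_cast this.symm
    rw [ph, ph, h5, h6, hcc, star_div₀]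
    simp only [RCLike.star_def]
    rw [inner_conj_symm, Complex.conj_ofReal]
    field_simp
  have hsum : ∑ l, inner ℂ (x i) (e l) * inner ℂ (e l) (x j) = inner ℂ (x i) (x j) :=
    e.sum_inner_mul_inner (x i) (x j)
  have hk1 : ov x (e k) i = bv d := mem_Ak.1 hi
  have hk2 : ov x (e k) j = bv d := mem_Ak.1 hj
  have hl : ∀ l, l ≠ k → ∀ i', i' ∈ Ak x e (bv d) k → ov x (e l) i' = av d := by
    intro l hlk i' hi'
    rw [h l i', if_neg]
    intro h'
    exact Finset.disjoint_left.1 (hdis l k hlk) h' hi'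
  have h1 : ∑ l, inner ℂ (x i) (e l) * inner ℂ (e l) (x j) =
      (av d : ℂ) * ∑ l, star (ph (inner ℂ (e l) (x i))) * ph (inner ℂ (e l) (x j)) +
      ((bv d - av d : ℝ) : ℂ) *
        (star (ph (inner ℂ (e k) (x i))) * ph (inner ℂ (e k) (x j))) := by
    rw [← Finset.add_sum_erase _ _ (Finset.mem_univ k),
      ← Finset.add_sum_erase (a := k) _ (fun l => star (ph (inner ℂ (e l) (x i))) *
        ph (inner ℂ (e l) (x j))) (Finset.mem_univ k), hterm k (bv d) hb hk1 hk2]
    have h2 : ∑ l ∈ Finset.univ.erase k, inner ℂ (x i) (e l) * inner ℂ (e l) (x j) =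
        (av d : ℂ) * ∑ l ∈ Finset.univ.erase k,
          star (ph (inner ℂ (e l) (x i))) * ph (inner ℂ (e l) (x j)) := by
      rw [Finset.mul_sum]
      refine Finset.sum_congr rfl fun l hl' => ?_
      have hlk := Finset.ne_of_mem_erase hl'
      exact hterm l (av d) ha (hl l hlk i hi) (hl l hlk j hj)
    rw [h2]
    push_cast
    ring
  rw [hsum, hg, hterm k (bv d) hb hk1 hk2] at h1
  have h2 : (gm d : ℂ) * (bv d : ℂ) = ((bv d - av d : ℝ) : ℂ) := by
    rw [bv_sub_av hd, ← gm_bv hd]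
    push_cast
    ring
  rw [← mul_assoc, h2] at h1
  have h3 : (av d : ℂ) * ∑ l, star (ph (inner ℂ (e l) (x i))) * ph (inner ℂ (e l) (x j)) = 0 := by
    have := sub_eq_zero.2 h1
    linear_combination -this
  exact (mul_eq_zero.1 h3).resolve_left (by exact_mod_cast ha.ne')

end basis

/-- a partition into positive sets gives a basis -/
theorem partition_basis (hx : IsMaxETF d x) (hd : 2 ≤ d) (A : Fin d → Finset (Fin (d ^ 2)))
    (hA : ∀ k, (A k).card = d) (hP : ∀ k, Positive x (A k))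
    (hdis : ∀ k l, k ≠ l → Disjoint (A k) (A l)) :
    ∃ e : OrthonormalBasis (Fin d) ℂ (EuclideanSpace ℂ (Fin d)),
      ∀ k, TwoOv x (e k) (A k) (av d) (bv d) := by
  choose v hv1 hv2 using fun k => positive_centre hx hd (hP k) (hA k)
  have ho : Orthonormal ℂ v := by
    refine ⟨hv1, fun k l hkl => ?_⟩
    have h1 := centres hx hd (hA k) (hA l) (hv1 k) (hv1 l) (hv2 k) (hv2 l)
    rw [Finset.disjoint_iff_inter_eq_empty.1 (hdis k l hkl), Finset.card_empty, Nat.cast_zero,
      zero_div] at h1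
    exact norm_eq_zero.1 (pow_eq_zero_iff (two_ne_zero) |>.1 h1)
  have ho' : Orthonormal ℂ (Set.univ.domRestrict v) := by
    exact ho.comp _ Subtype.val_injective
  obtain ⟨e, he⟩ := ho'.exists_orthonormalBasis_extension_of_card_eq (by simp)
  refine ⟨e, fun k => ?_⟩
  rw [he k (Set.mem_univ k)]
  exact hv2 k

end Q202.ETF
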